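import Pool.Agent.H24.PottsProof

set_option autoImplicit false

namespace Pool.Agent.Results.MP_82263f_pr.NoCensoring

open Pool.Agent.H24.Potts

/-- The censoring inequality fails for the ferromagnetic 3-state Potts model started from a
constant configuration. -/
theorem result : ∃ (G : SimpleGraph (Fin 5)) (_ : DecidableRel G.Adj) (β : ℝ)
    (v w : List (Fin 5)), 0 < β ∧ w.Sublist v ∧
      tv (law G β (0 : Fin 3) w) (potts G β) < tv (law G β (0 : Fin 3) v) (potts G β) :=
  ⟨G0, inferInstance, Real.log 10, [3, 4, 0, 3, 4, 2, 0, 3], [3, 4, 0, 4, 2, 0, 3],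
    Real.log_pos (by norm_num), by decide, main⟩

end Pool.Agent.Results.MP_82263f_pr.NoCensoring
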